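import Pool.Agent.Helper25_AEU.Stmt

/-!
# ACT: the action of isometries on half-planes and bodies
-/

namespace Pool.Agent.AEU.H72

open MeasureTheory Complex Filter Topology Pool.Agent.H62T
open Pool.Agent.H16F (Sublin)

theorem ip_inner (z w : ℂ) : ip z w = inner ℝ z w := by
  rw [Complex.inner]
  simp [ip]
  ring

theorem ip_add (z a b : ℂ) : ip z (a + b) = ip z a + ip z b := by
  simp only [ip, add_re, add_im]
  ring

theorem ip_sub (z a b : ℂ) : ip z (a - b) = ip z a - ip z b := by
  simp only [ip, sub_re, sub_im]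
  ring

theorem ip_smul (z : ℂ) (c : ℝ) (a : ℂ) : ip z ((c : ℂ) * a) = c * ip z a := by
  simp only [ip, re_ofReal_mul, im_ofReal_mul]
  ring

theorem ip_map (L : ℂ ≃ₗᵢ[ℝ] ℂ) (a b : ℂ) : ip (L a) (L b) = ip a b := by
  rw [ip_inner, ip_inner, L.inner_map_map]

theorem ip_symm (L : ℂ ≃ₗᵢ[ℝ] ℂ) (w x : ℂ) : ip w (L x) = ip (L.symm w) x := by
  conv_lhs => rw [← L.apply_symm_apply w]
  rw [ip_map]

theorem app (g : Iso2) (x : ℂ) : g x = g.linearIsometryEquiv x + g 0 := by
  have := g.map_vadd 0 x
  simpa using this

theorem lin_mul (g g' : Iso2) (w : ℂ) :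
    (g * g').linearIsometryEquiv w = g.linearIsometryEquiv (g'.linearIsometryEquiv w) := by
  have h1 := app (g * g') w
  have h2 : (g * g') w = g (g' w) := rfl
  have h3 : (g * g') 0 = g (g' 0) := rfl
  rw [h2, h3, app g (g' w), app g (g' 0), app g' w, map_add] at h1
  have h4 : (g * g').linearIsometryEquiv w
      = g.linearIsometryEquiv (g'.linearIsometryEquiv w) + g.linearIsometryEquiv (g' 0) + g 0
        - (g.linearIsometryEquiv (g' 0) + g 0) := by
    rw [h1]; ring
  rw [h4]; ring

theorem lin_one (w : ℂ) : (1 : Iso2).linearIsometryEquiv w = w := by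
  have h1 := app 1 w
  have h2 : (1 : Iso2) w = w := rfl
  have h3 : (1 : Iso2) 0 = 0 := rfl
  rw [h2, h3, add_zero] at h1
  exact h1.symm

theorem lin_mul_symm (g g' : Iso2) (w : ℂ) :
    (g * g').linearIsometryEquiv.symm w
      = g'.linearIsometryEquiv.symm (g.linearIsometryEquiv.symm w) := by
  rw [LinearIsometryEquiv.symm_apply_eq, lin_mul, LinearIsometryEquiv.apply_symm_apply,
    LinearIsometryEquiv.apply_symm_apply]

theorem lin_one_symm (w : ℂ) : (1 : Iso2).linearIsometryEquiv.symm w = w := by
  rw [LinearIsometryEquiv.symm_apply_eq, lin_one]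

theorem dt_sq (a b : ℂ) : dt a b ^ 2 = ‖a‖ ^ 2 * ‖b‖ ^ 2 - ip a b ^ 2 := by
  rw [Complex.sq_norm, Complex.sq_norm, Complex.normSq_apply, Complex.normSq_apply]
  simp only [dt, ip]
  ring

theorem act : ActStatement := by
  refine ⟨?_, ?_, ?_, ?_, ?_, ?_, ?_, ?_, ?_, ?_, ?_, ?_, ?_, ?_⟩
  · intro g g' s
    simp only [mv]
    refine Prod.ext (lin_mul g g' s.1) ?_
    simp only
    rw [lin_mul, show (g * g') 0 = g (g' 0) from rfl, app g (g' 0), ip_add, ip_map]
    ring
  · intro s
    simp only [mv]
    refine Prod.ext (lin_one s.1) ?_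
    simp only
    rw [show (1 : Iso2) 0 = 0 from rfl]
    simp [ip]
  · intro g g' h
    funext w
    simp only [mb]
    rw [lin_mul_symm, show (g * g') 0 = g (g' 0) from rfl, app g (g' 0), ip_add,
      ip_symm g.linearIsometryEquiv w (g' 0)]
    ring
  · intro h
    funext w
    simp only [mb]
    rw [lin_one_symm, show (1 : Iso2) 0 = 0 from rfl]
    simp [ip]
  · intro g h s
    simp only [mv, mb, LinearIsometryEquiv.symm_apply_apply]
    ring
  · intro g x s
    simp only [mv]
    rw [app g x, ip_add, ip_map]
    ring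
  · intro g x h
    simp only [In, mb]
    constructor
    · intro H w
      have := H (g.linearIsometryEquiv w)
      rw [LinearIsometryEquiv.symm_apply_apply, app g x, ip_add, ip_map] at this
      linarith
    · intro H w
      rw [app g x, ip_add, ip_symm]
      linarith [H (g.linearIsometryEquiv.symm w)]
  · intro g s t
    exact ip_map _ _ _
  · intro g s t
    rw [← sq_eq_sq_iff_abs_eq_abs, dt_sq, dt_sq]
    simp only [mv, LinearIsometryEquiv.norm_map, ip_map]
  · intro g s
    exact g.linearIsometryEquiv.norm_map _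
  · rintro g h ⟨h1, h2⟩
    constructor
    · intro a b
      simp only [mb, map_add]
      have e : ip (a + b) (g 0) = ip a (g 0) + ip b (g 0) := by
        simp only [ip, add_re, add_im]
        ring
      linarith [h1 (g.linearIsometryEquiv.symm a) (g.linearIsometryEquiv.symm b)]
    · intro c a hc
      have e1 : g.linearIsometryEquiv.symm ((c : ℂ) * a)
          = (c : ℂ) * g.linearIsometryEquiv.symm a := by
        have := g.linearIsometryEquiv.symm.map_smul c a
        simpa only [Complex.real_smul] using this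
      have e : ip ((c : ℂ) * a) (g 0) = c * ip a (g 0) := by
        simp only [ip, re_ofReal_mul, im_ofReal_mul]
        ring
      simp only [mb]
      rw [e1, h2 c _ hc, e]
      ring
  · intro g τ h h'
    funext w
    simp only [mb, mix]
    ring
  · intro g m x
    funext w
    simp only [mb, hf]
    rw [ciSup_add (Set.finite_range _).bddAbove]
    congr 1
    funext i
    rw [app g (x i), ip_add, ip_symm]
  · intro g σ h x
    funext w
    simp only [mb]
    rw [ip_sub, ip_smul, app g x, ip_add, ip_symm]
    ring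

end Pool.Agent.AEU.H72
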