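import Pool.Agent.Helper72_AEU.REF

/-!
# F3: the reflection law at three points on three lines
-/

namespace Pool.Agent.AEU.H72

open MeasureTheory Complex Filter Topology Pool.Agent.H62T
open Pool.Agent.H16F (Sublin)

theorem unit_conj {z : ℂ} (h : ‖z‖ = 1) : z * (starRingEnd ℂ) z = 1 := by
  rw [Complex.mul_conj, Complex.normSq_eq_norm_sq, h]
  simp

theorem dt_conj (z w : ℂ) :
    ((dt z w : ℝ) : ℂ) * 2 * I = (starRingEnd ℂ) z * w - z * (starRingEnd ℂ) w := by
  apply Complex.ext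
  · simp [dt]
    try ring
  · simp [dt]
    try ring

/-- twice the area of an inscribed triangle -/
theorem circum (a b c : ℂ) (ha : ‖a‖ = 1) (hb : ‖b‖ = 1) (hc : ‖c‖ = 1) :
    2 * |dt a b + dt b c + dt c a| = ‖a - b‖ * ‖b - c‖ * ‖c - a‖ := by
  have h1 := unit_conj ha
  have h2 := unit_conj hb
  have h3 := unit_conj hc
  have e1 := dt_conj a b
  have e2 := dt_conj b c
  have e3 := dt_conj c a
  have key : ((dt a b + dt b c + dt c a : ℝ) : ℂ) * 2 * I * (a * b * c)
      = -((a - b) * (b - c) * (c - a)) := by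
    push_cast
    linear_combination (a * b * c) * (e1 + e2 + e3) + (b ^ 2 * c - c ^ 2 * b) * h1
      + (c ^ 2 * a - a ^ 2 * c) * h2 + (a ^ 2 * b - b ^ 2 * a) * h3
  have := congrArg norm key
  rw [norm_neg, norm_mul, norm_mul, norm_mul, norm_mul, norm_mul, norm_mul, norm_mul, ha, hb, hc,
    Complex.norm_real, Complex.norm_I, Real.norm_eq_abs] at this
  rw [← this]
  norm_num
  ring

theorem sq_unit_sub (a b : ℂ) (ha : ‖a‖ = 1) (hb : ‖b‖ = 1) :
    ‖a - b‖ ^ 2 = 2 - 2 * ip a b := by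
  have ha' := unit_sq ha
  have hb' := unit_sq hb
  rw [Complex.sq_norm, Complex.normSq_apply]
  simp only [ip, sub_re, sub_im]
  linear_combination ha' + hb'

theorem f3_alg (a b c s t : ℂ) (L1 L2 L3 κs κt κr : ℝ) (ha : ‖a‖ = 1) (hb : ‖b‖ = 1)
    (hc : ‖c‖ = 1) (h1 : 0 < L1) (h2 : 0 < L2) (h3 : 0 < L3)
    (hL : (L1 : ℂ) * a + L2 * b + L3 * c = 0) (hκs : 0 < κs) (hκt : 0 < κt) (hκr : 0 < κr)
    (hs : (κs : ℂ) * s = c - a) (ht : (κt : ℂ) * t = a - b) (ns : ‖c - a‖ = κs)
    (nt : ‖a - b‖ = κt) (nr : ‖b - c‖ = κr) :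
    ip s t < 0 ∧ |dt s t| = κr / 2 := by
  have ha' := unit_sq ha
  have hb' := unit_sq hb
  have hc' := unit_sq hc
  have α1 : ip a b < 1 := by
    have := sq_unit_sub a b ha hb
    rw [nt] at this
    nlinarith only [this, hκt]
  have γ1 : ip c a < 1 := by
    have := sq_unit_sub c a hc ha
    rw [ns] at this
    nlinarith only [this, hκs]
  have hr := congrArg Complex.re hL
  have hi := congrArg Complex.im hL
  simp only [add_re, add_im, re_ofReal_mul, im_ofReal_mul, zero_re, zero_im] at hr hi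
  have r1 : L1 + L2 * ip a b + L3 * ip c a = 0 := by
    simp only [ip]
    linear_combination a.re * hr + a.im * hi - L1 * ha'
  have r2 : L1 * ip a b + L2 + L3 * ip b c = 0 := by
    simp only [ip]
    linear_combination b.re * hr + b.im * hi - L2 * hb'
  have r3 : L1 * ip c a + L2 * ip b c + L3 = 0 := by
    simp only [ip]
    linear_combination c.re * hr + c.im * hi - L3 * hc'
  have q3 : L3 ^ 2 = L1 ^ 2 + L2 ^ 2 + 2 * L1 * L2 * ip a b := by
    linear_combination L3 * r3 - L1 * r1 - L2 * r2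
  have q2 : L2 ^ 2 = L1 ^ 2 + L3 ^ 2 + 2 * L1 * L3 * ip c a := by
    linear_combination L2 * r2 - L1 * r1 - L3 * r3
  have q1 : L1 ^ 2 = L2 ^ 2 + L3 ^ 2 + 2 * L2 * L3 * ip b c := by
    linear_combination L1 * r1 - L2 * r2 - L3 * r3
  have t3 : L3 < L1 + L2 := by
    apply lt_of_pow_lt_pow_left₀ 2 (by positivity)
    rw [q3]
    have : 0 < L1 * L2 := by positivity
    nlinarith only [α1, this]
  have t2 : L2 < L1 + L3 := by
    apply lt_of_pow_lt_pow_left₀ 2 (by positivity)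
    rw [q2]
    have : 0 < L1 * L3 := by positivity
    nlinarith only [γ1, this]
  have hN : 2 * (L1 * L2 * L3) * (ip c a + ip a b - ip b c - 1)
      = -((L1 + L2 - L3) * (L1 - L2 + L3) * (L1 + L2 + L3)) := by
    linear_combination (-L2) * q2 - L3 * q3 + L1 * q1
  have hneg : ip c a + ip a b - ip b c - 1 < 0 := by
    have hp : 0 < (L1 + L2 - L3) * (L1 - L2 + L3) * (L1 + L2 + L3) := by
      apply mul_pos (mul_pos _ _) _ <;> linarith
    have hq : 0 < 2 * (L1 * L2 * L3) := by positivity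
    by_contra h
    push Not at h
    have := mul_nonneg hq.le h
    linarith
  have e1 : κs * κt * ip s t = ip c a + ip a b - ip b c - 1 := by
    have : κs * κt * ip s t = ip ((κs : ℂ) * s) ((κt : ℂ) * t) := by
      simp only [ip, re_ofReal_mul, im_ofReal_mul]; ring
    rw [this, hs, ht]
    simp only [ip, sub_re, sub_im]
    linear_combination -ha'
  have e2 : κs * κt * dt s t = dt a b + dt b c + dt c a := by
    have : κs * κt * dt s t = dt ((κs : ℂ) * s) ((κt : ℂ) * t) := by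
      simp only [dt, re_ofReal_mul, im_ofReal_mul]; ring
    rw [this, hs, ht]
    simp only [dt, sub_re, sub_im]
    ring
  have hst : 0 < κs * κt := by positivity
  refine ⟨?_, ?_⟩
  · by_contra h
    push Not at h
    have := mul_nonneg hst.le h
    linarith
  · have e3 := circum a b c ha hb hc
    rw [← e2, abs_mul, abs_of_pos hst, ns, nt, nr] at e3
    have e4 : κs * κt * (2 * |dt s t| - κr) = 0 := by linear_combination e3
    rcases mul_eq_zero.1 e4 with h | h
    · exact absurd h hst.ne'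
    · linarith

theorem f3 : F3Statement := by
  intro s t r x y z hs ht hr hsx hty hrz hsy hsz htx htz hrx hry ⟨ε, hε, hmin⟩
  obtain ⟨⟨κs, hκs, e1⟩, -⟩ := ref s.1 y z x s.2 hs hsx hsy hsz
    ⟨ε, hε, fun a ha => (hmin a ha).1⟩
  obtain ⟨⟨κt, hκt, e2⟩, -⟩ := ref t.1 x z y t.2 ht hty htx htz
    ⟨ε, hε, fun a ha => (hmin a ha).2.1⟩
  obtain ⟨⟨κr, hκr, e3⟩, -⟩ := ref r.1 x y z r.2 hr hrz hrx hry
    ⟨ε, hε, fun a ha => (hmin a ha).2.2⟩
  have hyx : y - x ≠ 0 := by
    intro h; rw [sub_eq_zero] at h; rw [h] at hsy; exact absurd hsx hsy.ne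
  have hzy : z - y ≠ 0 := by
    intro h; rw [sub_eq_zero] at h; rw [h] at htz; exact absurd hty htz.ne
  have hxz : x - z ≠ 0 := by
    intro h; rw [sub_eq_zero] at h; rw [h] at hrx; exact absurd hrz hrx.ne
  have n1 : 0 < ‖y - x‖ := norm_pos_iff.2 hyx
  have n2 : 0 < ‖z - y‖ := norm_pos_iff.2 hzy
  have n3 : 0 < ‖x - z‖ := norm_pos_iff.2 hxz
  have ua := norm_unit hyx
  have ub := norm_unit hzy
  have uc := norm_unit hxz
  set a := (y - x) / (‖y - x‖ : ℂ) with ha
  set b := (z - y) / (‖z - y‖ : ℂ) with hb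
  set c := (x - z) / (‖x - z‖ : ℂ) with hc
  have n1c : (‖y - x‖ : ℂ) ≠ 0 := by exact_mod_cast n1.ne'
  have n2c : (‖z - y‖ : ℂ) ≠ 0 := by exact_mod_cast n2.ne'
  have n3c : (‖x - z‖ : ℂ) ≠ 0 := by exact_mod_cast n3.ne'
  have ra : (‖y - x‖ : ℂ) * a = y - x := by rw [ha]; field_simp
  have rb : (‖z - y‖ : ℂ) * b = z - y := by rw [hb]; field_simp
  have rc : (‖x - z‖ : ℂ) * c = x - z := by rw [hc]; field_simp
  have hL : (‖y - x‖ : ℂ) * a + ‖z - y‖ * b + ‖x - z‖ * c = 0 := by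
    rw [ra, rb, rc]; ring
  have c1 : (z - x) / (‖z - x‖ : ℂ) = -c := by
    rw [hc, norm_sub_rev z x, ← neg_div, neg_sub]
  have c2 : (x - y) / (‖x - y‖ : ℂ) = -a := by
    rw [ha, norm_sub_rev x y, ← neg_div, neg_sub]
  have c3 : (y - z) / (‖y - z‖ : ℂ) = -b := by
    rw [hb, norm_sub_rev y z, ← neg_div, neg_sub]
  rw [c1] at e1
  rw [c2] at e2
  rw [c3] at e3
  have es : (κs : ℂ) * s.1 = c - a := by linear_combination e1
  have et : (κt : ℂ) * t.1 = a - b := by linear_combination e2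
  have er : (κr : ℂ) * r.1 = b - c := by linear_combination e3
  have ns : ‖c - a‖ = κs := by
    rw [← es, norm_mul, Complex.norm_real, hs, mul_one, Real.norm_of_nonneg hκs.le]
  have nt : ‖a - b‖ = κt := by
    rw [← et, norm_mul, Complex.norm_real, ht, mul_one, Real.norm_of_nonneg hκt.le]
  have nr : ‖b - c‖ = κr := by
    rw [← er, norm_mul, Complex.norm_real, hr, mul_one, Real.norm_of_nonneg hκr.le]
  obtain ⟨a1, d1⟩ := f3_alg a b c s.1 t.1 _ _ _ κs κt κr ua ub uc n1 n2 n3 hL hκs hκt hκr es et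
    ns nt nr
  obtain ⟨a2, d2⟩ := f3_alg b c a t.1 r.1 _ _ _ κt κr κs ub uc ua n2 n3 n1
    (by linear_combination hL) hκt hκr hκs et er nt nr ns
  obtain ⟨a3, d3⟩ := f3_alg c a b r.1 s.1 _ _ _ κr κs κt uc ua ub n3 n1 n2
    (by linear_combination hL) hκr hκs hκt er es nr ns nt
  refine ⟨a1, a2, a3, ?_⟩
  simp only [ell3]
  rw [d1, d2, d3]
  -- `κ_s s.2 = ip (c - a) x` and so on
  have f1 : κs * s.2 = ip (c - a) x := by
    rw [← es, ← hsx]
    simp only [ip, re_ofReal_mul, im_ofReal_mul]; ring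
  have f2 : κt * t.2 = ip (a - b) y := by
    rw [← et, ← hty]
    simp only [ip, re_ofReal_mul, im_ofReal_mul]; ring
  have f3 : κr * r.2 = ip (b - c) z := by
    rw [← er, ← hrz]
    simp only [ip, re_ofReal_mul, im_ofReal_mul]; ring
  have g1 : ip a (y - x) = ‖y - x‖ := by
    have h1 : ip a (y - x) = ip a ((‖y - x‖ : ℂ) * a) := by rw [ra]
    have := unit_sq ua
    rw [h1]
    simp only [ip, re_ofReal_mul, im_ofReal_mul]
    linear_combination ‖y - x‖ * this
  have g2 : ip b (z - y) = ‖z - y‖ := by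
    have h1 : ip b (z - y) = ip b ((‖z - y‖ : ℂ) * b) := by rw [rb]
    have := unit_sq ub
    rw [h1]
    simp only [ip, re_ofReal_mul, im_ofReal_mul]
    linear_combination ‖z - y‖ * this
  have g3 : ip c (x - z) = ‖x - z‖ := by
    have h1 : ip c (x - z) = ip c ((‖x - z‖ : ℂ) * c) := by rw [rc]
    have := unit_sq uc
    rw [h1]
    simp only [ip, re_ofReal_mul, im_ofReal_mul]
    linear_combination ‖x - z‖ * this
  have g : ip (c - a) x + ip (a - b) y + ip (b - c) z
      = ip a (y - x) + ip b (z - y) + ip c (x - z) := by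
    simp only [ip, sub_re, sub_im]; ring
  rw [g1, g2, g3] at g
  rw [norm_sub_rev x y, norm_sub_rev y z, norm_sub_rev z x]
  linear_combination -g - f1 - f2 - f3

end Pool.Agent.AEU.H72
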