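import Pool.Agent.Helper25_AEU.Stmt

/-!
# RAD: four points on four different sides, crossing segments
-/

namespace Pool.Agent.AEU.H72

open MeasureTheory Complex Filter Topology Pool.Agent.H62T
open Pool.Agent.H16F (Sublin)

/-- the permutation `0 ↦ 2, 1 ↦ 0, 2 ↦ 3, 3 ↦ 1` -/
def tau : Equiv.Perm (Fin 4) where
  toFun := ![2, 0, 3, 1]
  invFun := ![1, 3, 0, 2]
  left_inv := by decide
  right_inv := by decide

/-- an affine dependence of four points of the plane -/
theorem exists_dep (x : Fin 4 → ℂ) : ∃ w : Fin 4 → ℝ, w ≠ 0 ∧ ∑ i, w i = 0 ∧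
    ∑ i, (w i : ℂ) * x i = 0 := by
  have h : ¬ LinearIndependent ℝ (fun i => ((1 : ℝ), x i)) := by
    intro h
    have h1 := h.fintype_card_le_finrank
    have h2 : Module.finrank ℝ (ℝ × ℂ) = 3 := by
      rw [Module.finrank_prod, Complex.finrank_real_complex, Module.finrank_self]
    rw [h2, Fintype.card_fin] at h1
    omega
  rw [Fintype.not_linearIndependent_iff] at h
  obtain ⟨w, hw, i, hi⟩ := h
  have h1 := congrArg Prod.fst hw
  have h2 := congrArg Prod.snd hw
  rw [Prod.fst_sum] at h1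
  rw [Prod.snd_sum] at h2
  refine ⟨w, ?_, ?_, ?_⟩
  · intro h0
    exact hi (by rw [h0]; rfl)
  · simpa using h1
  · simpa [Complex.real_smul] using h2

theorem all_zero (x : Fin 4 → ℂ) (s : Fin 4 → HP)
    (hx : ∀ i, ip (s i).1 (x i) = (s i).2) (hs : ∀ i j, i ≠ j → ip (s i).1 (x j) < (s i).2)
    (w : Fin 4 → ℝ) (h1 : ∑ i, w i = 0) (h2 : ∑ i, (w i : ℂ) * x i = 0) (i : Fin 4)
    (hw : ∀ j, j ≠ i → 0 ≤ w j) : w = 0 := by
  have h3 : ∑ j, w j * ((s i).2 - ip (s i).1 (x j)) = 0 := by
    have hr := congrArg Complex.re h2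
    have hi := congrArg Complex.im h2
    simp only [Complex.re_sum, Complex.im_sum, re_ofReal_mul, im_ofReal_mul, zero_re, zero_im]
      at hr hi
    have e : ∑ j, w j * ((s i).2 - ip (s i).1 (x j)) = (s i).2 * ∑ j, w j
        - (s i).1.re * ∑ j, w j * (x j).re - (s i).1.im * ∑ j, w j * (x j).im := by
      rw [Finset.mul_sum, Finset.mul_sum, Finset.mul_sum, ← Finset.sum_sub_distrib,
        ← Finset.sum_sub_distrib]
      refine Finset.sum_congr rfl fun j _ => ?_
      simp only [ip]
      ring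
    rw [e, h1, hr, hi]
    ring
  have h4 : ∀ j, 0 ≤ w j * ((s i).2 - ip (s i).1 (x j)) := by
    intro j
    by_cases hj : j = i
    · rw [hj, hx i, sub_self, mul_zero]
    · exact mul_nonneg (hw j hj) (by linarith [hs i j (Ne.symm hj)])
  rw [Finset.sum_eq_zero_iff_of_nonneg (fun j _ => h4 j)] at h3
  have h5 : ∀ j, j ≠ i → w j = 0 := by
    intro j hj
    rcases mul_eq_zero.1 (h3 j (Finset.mem_univ _)) with h | h
    · exact h
    · exact absurd h (by linarith [hs i j (Ne.symm hj)])
  funext j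
  by_cases hj : j = i
  · rw [hj]
    rw [← Finset.add_sum_erase _ _ (Finset.mem_univ i)] at h1
    rw [Finset.sum_eq_zero (fun j hj => h5 j (Finset.ne_of_mem_erase hj)), add_zero] at h1
    exact h1
  · exact h5 j hj

theorem rad : RadStatement := by
  intro x s hx hs
  obtain ⟨w, hw0, hw1, hw2⟩ := exists_dep x
  set σ := Tuple.sort w with hσ
  have hmono : Monotone (w ∘ σ) := Tuple.monotone_sort w
  -- the second smallest is negative
  have hneg : w (σ 1) < 0 := by
    by_contra h
    push Not at h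
    apply hw0
    apply all_zero x s hx hs w hw1 hw2 (σ 0)
    intro j hj
    have hj' : σ.symm j ≠ 0 := by
      intro h0
      apply hj
      rw [← h0, Equiv.apply_symm_apply]
    have h1 : (1 : Fin 4) ≤ σ.symm j := by
      have : (σ.symm j).val ≠ 0 := fun h0 => hj' (Fin.ext h0)
      exact Fin.le_def.2 (Nat.one_le_iff_ne_zero.2 this)
    have h2 := hmono h1
    simp only [Function.comp, Equiv.apply_symm_apply] at h2
    linarith
  have hpos : 0 < w (σ 2) := by
    by_contra h
    push Not at h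
    apply hw0
    have h3 : (fun i => -w i) = 0 := by
      apply all_zero x s hx hs (fun i => -w i) (by rw [Finset.sum_neg_distrib, hw1, neg_zero])
        (by
          have : ∑ i, ((-w i : ℝ) : ℂ) * x i = -∑ i, (w i : ℂ) * x i := by
            rw [← Finset.sum_neg_distrib]
            refine Finset.sum_congr rfl fun i _ => ?_
            push_cast; ring
          rw [this, hw2, neg_zero]) (σ 3)
      intro j hj
      have hj' : σ.symm j ≠ 3 := by
        intro h0
        apply hj
        rw [← h0, Equiv.apply_symm_apply]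
      have h1 : σ.symm j ≤ (2 : Fin 4) := by
        have : (σ.symm j).val ≠ 3 := fun h0 => hj' (Fin.ext h0)
        rw [Fin.le_def]
        have := (σ.symm j).isLt
        change (σ.symm j).val ≤ 2
        omega
      have h2 := hmono h1
      simp only [Function.comp, Equiv.apply_symm_apply] at h2
      linarith
    funext i
    have := congrFun h3 i
    simp only [Pi.zero_apply] at this ⊢
    linarith
  have h01 : w (σ 0) ≤ w (σ 1) := hmono (by decide : (0 : Fin 4) ≤ 1)
  have h23 : w (σ 2) ≤ w (σ 3) := hmono (by decide : (2 : Fin 4) ≤ 3)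
  have hs1 : w (σ 0) + w (σ 1) + w (σ 2) + w (σ 3) = 0 := by
    rw [← Equiv.sum_comp σ w, Fin.sum_univ_four] at hw1
    exact hw1
  have hs2 : (w (σ 0) : ℂ) * x (σ 0) + w (σ 1) * x (σ 1) + w (σ 2) * x (σ 2)
      + w (σ 3) * x (σ 3) = 0 := by
    rw [← Equiv.sum_comp σ (fun i => (w i : ℂ) * x i), Fin.sum_univ_four] at hw2
    exact hw2
  have hS : 0 < w (σ 2) + w (σ 3) := by linarith
  refine ⟨tau.trans σ, ((w (σ 2) / (w (σ 2) + w (σ 3)) : ℝ) : ℂ) * x (σ 2)
    + ((w (σ 3) / (w (σ 2) + w (σ 3)) : ℝ) : ℂ) * x (σ 3), ?_, ?_⟩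
  · change _ ∈ segment ℝ (x (σ 2)) (x (σ 3))
    refine ⟨w (σ 2) / (w (σ 2) + w (σ 3)), w (σ 3) / (w (σ 2) + w (σ 3)),
      by positivity, div_nonneg (by linarith) hS.le, ?_, ?_⟩
    · rw [← add_div, div_self hS.ne']
    · rw [Complex.real_smul, Complex.real_smul]
  · change _ ∈ segment ℝ (x (σ 0)) (x (σ 1))
    refine ⟨-w (σ 0) / (w (σ 2) + w (σ 3)), -w (σ 1) / (w (σ 2) + w (σ 3)),
      div_nonneg (by linarith) hS.le, div_nonneg (by linarith) hS.le, ?_, ?_⟩
    · rw [← add_div, div_eq_one_iff_eq hS.ne']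
      linarith
    · rw [Complex.real_smul, Complex.real_smul]
      have hSc : ((w (σ 2) + w (σ 3) : ℝ) : ℂ) ≠ 0 := by exact_mod_cast hS.ne'
      push_cast at hSc ⊢
      field_simp
      linear_combination (-1 : ℂ) * hs2

end Pool.Agent.AEU.H72
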