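import Pool.Agent.Helper25_AEU.Stmt

/-!
# REF: reflection law at a point of a line
-/

namespace Pool.Agent.AEU.H72

open MeasureTheory Complex Filter Topology Pool.Agent.H62T
open Pool.Agent.H16F (Sublin)

theorem hasDerivAt_norm_line (a w : ℂ) (ha : a ≠ 0) :
    HasDerivAt (fun t : ℝ => ‖a + (t : ℂ) * w‖) (ip a w / ‖a‖) 0 := by
  have e : (fun t : ℝ => ‖a + (t : ℂ) * w‖)
      = fun t : ℝ => Real.sqrt ((a.re + t * w.re) ^ 2 + (a.im + t * w.im) ^ 2) := by
    funext t
    rw [Complex.norm_eq_sqrt_sq_add_sq]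
    simp only [add_re, add_im, re_ofReal_mul, im_ofReal_mul]
  have h1 : HasDerivAt (fun t : ℝ => (a.re + t * w.re) ^ 2 + (a.im + t * w.im) ^ 2)
      (2 * ip a w) 0 := by
    have h2 : HasDerivAt (fun t : ℝ => a.re + t * w.re) w.re 0 := by
      simpa using ((hasDerivAt_id (0 : ℝ)).mul_const w.re).const_add a.re
    have h3 : HasDerivAt (fun t : ℝ => a.im + t * w.im) w.im 0 := by
      simpa using ((hasDerivAt_id (0 : ℝ)).mul_const w.im).const_add a.im
    have h4 := (h2.pow 2).add (h3.pow 2)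
    refine h4.congr_deriv ?_
    simp only [ip]
    push_cast
    ring
  have h0 : ((a.re + (0 : ℝ) * w.re) ^ 2 + (a.im + (0 : ℝ) * w.im) ^ 2) ≠ 0 := by
    intro h
    apply ha
    have h5 : a.re ^ 2 + a.im ^ 2 = 0 := by linarith
    have h6 : a.re = 0 := by nlinarith only [h, sq_nonneg a.re, sq_nonneg a.im]
    have h7 : a.im = 0 := by nlinarith only [h, sq_nonneg a.re, sq_nonneg a.im]
    exact Complex.ext h6 h7
  have h2 := h1.sqrt h0
  rw [e]
  refine h2.congr_deriv ?_
  have e2 : Real.sqrt ((a.re + (0 : ℝ) * w.re) ^ 2 + (a.im + (0 : ℝ) * w.im) ^ 2) = ‖a‖ := by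
    rw [Complex.norm_eq_sqrt_sq_add_sq]
    simp
  rw [e2]
  have : ‖a‖ ≠ 0 := norm_ne_zero_iff.2 ha
  field_simp

theorem unit_sq {z : ℂ} (h : ‖z‖ = 1) : z.re ^ 2 + z.im ^ 2 = 1 := by
  have h1 := Complex.sq_norm z
  rw [h, Complex.normSq_apply] at h1
  linarith only [h1]

theorem ref_alg (u a b : ℂ) (hu : ‖u‖ = 1) (ha : ‖a‖ = 1) (hb : ‖b‖ = 1)
    (h0 : ip a (I * u) + ip b (I * u) = 0) (h1 : ip u a < 0) (h2 : ip u b < 0) :
    a + b = -(((-(ip u a + ip u b) : ℝ) : ℂ) * u) ∧
      b = -(u ^ 2 * (starRingEnd ℂ) (-a)) := by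
  have hu' := unit_sq hu
  have ha' := unit_sq ha
  have hb' := unit_sq hb
  simp only [ip, mul_re, mul_im, I_re, I_im] at h0 h1 h2
  have h0' : u.re * (a.im + b.im) = u.im * (a.re + b.re) := by linarith
  -- coordinates with respect to `u`
  set α := u.re * a.re + u.im * a.im with hα
  set β := u.re * b.re + u.im * b.im with hβ
  set γ := u.re * a.im - u.im * a.re with hγ
  have hγb : u.re * b.im - u.im * b.re = -γ := by rw [hγ]; linarith
  have e1 : α ^ 2 + γ ^ 2 = 1 := by
    rw [hα, hγ]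
    linear_combination (a.re ^ 2 + a.im ^ 2) * hu' + ha'
  have e2 : β ^ 2 + γ ^ 2 = 1 := by
    have : β ^ 2 + (u.re * b.im - u.im * b.re) ^ 2 = 1 := by
      rw [hβ]
      linear_combination (b.re ^ 2 + b.im ^ 2) * hu' + hb'
    rw [hγb] at this
    linarith
  have e3 : α = β := by nlinarith only [e1, e2, h1, h2]
  have ar : a.re = α * u.re - γ * u.im := by
    rw [hα, hγ]; linear_combination (-a.re) * hu'
  have ai : a.im = α * u.im + γ * u.re := by
    rw [hα, hγ]; linear_combination (-a.im) * hu'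
  have br : b.re = β * u.re + γ * u.im := by
    have : γ = -(u.re * b.im - u.im * b.re) := by linarith
    rw [this, hβ]; linear_combination (-b.re) * hu'
  have bi : b.im = β * u.im - γ * u.re := by
    have : γ = -(u.re * b.im - u.im * b.re) := by linarith
    rw [this, hβ]; linear_combination (-b.im) * hu'
  clear_value α β γ
  constructor
  · apply Complex.ext
    · simp only [add_re, neg_re, re_ofReal_mul, ip]
      rw [ar, ai, br, bi]
      linear_combination (-(α + β) * u.re) * hu'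
    · simp only [add_im, neg_im, im_ofReal_mul, ip]
      rw [ar, ai, br, bi]
      linear_combination (-(α + β) * u.im) * hu'
  · apply Complex.ext
    · simp only [neg_re, mul_re, pow_two, mul_im, conj_re, conj_im, neg_im]
      rw [ar, ai, br, ← e3]
      linear_combination (-(α * u.re + γ * u.im)) * hu'
    · simp only [neg_re, mul_re, pow_two, mul_im, conj_re, conj_im, neg_im]
      rw [ar, ai, bi, ← e3]
      linear_combination (-(α * u.im - γ * u.re)) * hu'

theorem ip_div (z w : ℂ) (r : ℝ) : ip (z / (r : ℂ)) w = ip z w / r := by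
  simp only [ip]
  rw [Complex.div_ofReal_re, Complex.div_ofReal_im]
  ring

theorem ip_comm (z w : ℂ) : ip z w = ip w z := by
  simp only [ip]; ring

theorem norm_unit {z : ℂ} (hz : z ≠ 0) : ‖z / (‖z‖ : ℂ)‖ = 1 := by
  rw [norm_div, Complex.norm_real, norm_norm, div_self (norm_ne_zero_iff.2 hz)]

theorem ref : RefStatement := by
  intro u p q y c hu hy hp hq ⟨ε, hε, hmin⟩
  have hpy : p - y ≠ 0 := by
    intro h
    rw [sub_eq_zero] at h
    rw [h, hy] at hp
    exact lt_irrefl _ hp
  have hqy : q - y ≠ 0 := by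
    intro h
    rw [sub_eq_zero] at h
    rw [h, hy] at hq
    exact lt_irrefl _ hq
  have hnp : 0 < ‖p - y‖ := norm_pos_iff.2 hpy
  have hnq : 0 < ‖q - y‖ := norm_pos_iff.2 hqy
  have d1 := hasDerivAt_norm_line (p - y) (-(I * u)) hpy
  have d2 := hasDerivAt_norm_line (q - y) (-(I * u)) hqy
  have d3 := d1.add d2
  have hloc : IsLocalMin (fun t : ℝ => ‖(p - y) + (t : ℂ) * (-(I * u))‖
      + ‖(q - y) + (t : ℂ) * (-(I * u))‖) 0 := by
    have : ∀ᶠ t : ℝ in 𝓝 0, |t| < ε := by
      have := Metric.ball_mem_nhds (0 : ℝ) hε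
      filter_upwards [this] with t ht
      simpa [Metric.mem_ball, Real.dist_eq] using ht
    filter_upwards [this] with t ht
    have h := hmin t ht
    have e1 : (p - y) + (t : ℂ) * (-(I * u)) = p - (y + t * (I * u)) := by ring
    have e2 : ‖(q - y) + (t : ℂ) * (-(I * u))‖ = ‖(y + t * (I * u)) - q‖ := by
      rw [← norm_neg]
      congr 1
      ring
    have e3 : ‖y - q‖ = ‖q - y‖ := norm_sub_rev _ _
    simp only [ofReal_zero, zero_mul, add_zero]
    rw [e1, e2, ← e3]
    exact h
  have h0 := hloc.hasDerivAt_eq_zero d3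
  set a := (p - y) / (‖p - y‖ : ℂ) with ha
  set b := (q - y) / (‖q - y‖ : ℂ) with hb
  have h0' : ip a (I * u) + ip b (I * u) = 0 := by
    rw [ha, hb, ip_div, ip_div]
    have e1 : ip (p - y) (-(I * u)) = - ip (p - y) (I * u) := by
      simp only [ip, neg_re, neg_im]; ring
    have e2 : ip (q - y) (-(I * u)) = - ip (q - y) (I * u) := by
      simp only [ip, neg_re, neg_im]; ring
    rw [e1, e2, neg_div, neg_div] at h0
    linarith only [h0]
  have h1 : ip u a < 0 := by
    rw [ip_comm, ha, ip_div]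
    apply div_neg_of_neg_of_pos _ hnp
    have : ip (p - y) u = ip u p - ip u y := by
      simp only [ip, sub_re, sub_im]; ring
    rw [this]; linarith
  have h2 : ip u b < 0 := by
    rw [ip_comm, hb, ip_div]
    apply div_neg_of_neg_of_pos _ hnq
    have : ip (q - y) u = ip u q - ip u y := by
      simp only [ip, sub_re, sub_im]; ring
    rw [this]; linarith
  obtain ⟨r1, r2⟩ := ref_alg u a b hu (norm_unit hpy) (norm_unit hqy) h0' h1 h2
  refine ⟨⟨-(ip u a + ip u b), by linarith, r1⟩, ?_⟩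
  rw [r2]
  congr 3
  rw [ha, norm_sub_rev y p, ← neg_div, neg_sub]

end Pool.Agent.AEU.H72
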